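import Mathlib

/-!
# Tensors, unit tensors, one-parameter subgroups
-/

set_option autoImplicit false

namespace Pool.Agent.Q76.Sub

open Filter Topology

/-- Tensors in `(ℂ^n)^{⊗ d}`, by their coordinates. -/
abbrev Tensor (d n : ℕ) := (Fin d → Fin n) → ℂ

variable {d m n p : ℕ}

/-- `(A_1 ⊗ ... ⊗ A_d) T`. -/
def act (A : Fin d → Matrix (Fin m) (Fin n) ℂ) (T : Tensor d n) : Tensor d m :=
  fun i => ∑ j, (∏ k, A k (i k) (j k)) * T j

/-- The basis tensor `e_{w 1} ⊗ ... ⊗ e_{w d}`. -/
def basisT (w : Fin d → Fin n) : Tensor d n := Pi.single w 1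

/-- The unit tensor `I_r = ∑_{b < r} e_b ⊗ ... ⊗ e_b`. -/
def unitT (d n r : ℕ) : Tensor d n := ∑ b : Fin n with b.val < r, basisT fun _ => b

theorem act_act (A : Fin d → Matrix (Fin p) (Fin m) ℂ) (B : Fin d → Matrix (Fin m) (Fin n) ℂ)
    (T : Tensor d n) : act A (act B T) = act (fun k => A k * B k) T := by
  funext i
  simp only [act, Matrix.mul_apply, Finset.mul_sum]
  rw [Finset.sum_comm]
  refine Finset.sum_congr rfl fun j _ => ?_
  rw [Finset.prod_univ_sum, Finset.sum_mul, Fintype.piFinset_univ]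
  refine Finset.sum_congr rfl fun x _ => ?_
  rw [Finset.prod_mul_distrib, mul_assoc]

theorem act_add (A : Fin d → Matrix (Fin m) (Fin n) ℂ) (S T : Tensor d n) :
    act A (S + T) = act A S + act A T := by
  funext i
  simp only [act, Pi.add_apply, mul_add, Finset.sum_add_distrib]

theorem act_zero (A : Fin d → Matrix (Fin m) (Fin n) ℂ) : act A (0 : Tensor d n) = 0 := by
  funext i
  simp [act]

theorem act_sum {ι : Type*} (s : Finset ι) (A : Fin d → Matrix (Fin m) (Fin n) ℂ)
    (F : ι → Tensor d n) : act A (∑ x ∈ s, F x) = ∑ x ∈ s, act A (F x) := by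
  classical
  induction s using Finset.induction_on with
  | empty => simp [act_zero]
  | insert a s ha ih => rw [Finset.sum_insert ha, Finset.sum_insert ha, act_add, ih]

theorem act_basisT (A : Fin d → Matrix (Fin m) (Fin n) ℂ) (w : Fin d → Fin n)
    (i : Fin d → Fin m) : act A (basisT w) i = ∏ k, A k (i k) (w k) := by
  rw [act, Finset.sum_eq_single w]
  · simp [basisT]
  · intro j _ hj
    simp [basisT, Pi.single_eq_of_ne hj]
  · simp

theorem act_unitT (r : ℕ) (A : Fin d → Matrix (Fin m) (Fin n) ℂ) (i : Fin d → Fin m) :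
    act A (unitT d n r) i = ∑ b : Fin n with b.val < r, ∏ k, A k (i k) b := by
  rw [unitT, act_sum, Finset.sum_apply]
  refine Finset.sum_congr rfl fun b _ => ?_
  rw [act_basisT]

theorem act_one (T : Tensor d n) : act (fun _ => (1 : Matrix (Fin n) (Fin n) ℂ)) T = T := by
  funext i
  rw [act, Finset.sum_eq_single i]
  · simp
  · intro j _ hj
    obtain ⟨k, hk⟩ : ∃ k, j k ≠ i k := by
      by_contra h
      push Not at h
      exact hj (funext h)
    rw [Finset.prod_eq_zero (Finset.mem_univ k), zero_mul]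
    exact Matrix.one_apply_ne hk.symm
  · simp

theorem continuous_act (A : Fin d → Matrix (Fin m) (Fin n) ℂ) :
    Continuous fun T : Tensor d n => act A T := by
  apply continuous_pi
  intro i
  exact continuous_finsetSum _ fun j _ => continuous_const.mul (continuous_apply j)

/-- The orbit of `T` under `GL_n(ℂ)^d`. -/
def orbit (T : Tensor d n) : Set (Tensor d n) :=
  Set.range fun g : Fin d → GL (Fin n) ℂ => act (fun k => (g k).1) T

/-- The border subrank: the largest `r ≤ n` with `I_r` in the closure of the orbit. -/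
noncomputable def borderSubrank (T : Tensor d n) : ℕ :=
  sSup {r | r ≤ n ∧ unitT d n r ∈ closure (orbit T)}

/-- A function on `ℂˣ` given by a Laurent polynomial. -/
def IsLaurent (f : ℂˣ → ℂ) : Prop :=
  ∃ (N : ℕ) (p : Polynomial ℂ), ∀ t : ℂˣ, (t : ℂ) ^ N * f t = p.eval (t : ℂ)

/-- One-parameter subgroups of `GL_n(ℂ)^d`: homomorphisms given by Laurent polynomials. -/
def IsOneParam (lam : ℂˣ →* (Fin d → GL (Fin n) ℂ)) : Prop :=
  ∀ k i j, IsLaurent fun t => (lam t k).1 i j

/-- `lam (t) T → S` as `t → 0`. -/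
def HasLimit (lam : ℂˣ →* (Fin d → GL (Fin n) ℂ)) (T S : Tensor d n) : Prop :=
  Tendsto (fun t : ℂˣ => act (fun k => (lam t k).1) T) (comap (fun t : ℂˣ => (t : ℂ)) (𝓝 0)) (𝓝 S)

/-- The Hilbert-Mumford subrank, read literally: the limit is `I_r` itself. -/
noncomputable def hmSubrankStrict (T : Tensor d n) : ℕ :=
  sSup {r | r ≤ n ∧ ∃ lam : ℂˣ →* (Fin d → GL (Fin n) ℂ), IsOneParam lam ∧
    HasLimit lam T (unitT d n r)}

/-- The Hilbert-Mumford subrank: the limit is in the orbit of `I_r`. -/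
noncomputable def hmSubrank (T : Tensor d n) : ℕ :=
  sSup {r | r ≤ n ∧ ∃ lam : ℂˣ →* (Fin d → GL (Fin n) ℂ), IsOneParam lam ∧
    ∃ S ∈ orbit (unitT d n r), HasLimit lam T S}

/-! ### Laurent polynomials -/

theorem IsLaurent.add {f g : ℂˣ → ℂ} (hf : IsLaurent f) (hg : IsLaurent g) :
    IsLaurent fun t => f t + g t := by
  obtain ⟨N, p, hp⟩ := hf
  obtain ⟨M, q, hq⟩ := hg
  refine ⟨N + M, Polynomial.X ^ M * p + Polynomial.X ^ N * q, fun t => ?_⟩
  simp only [Polynomial.eval_add, Polynomial.eval_mul, Polynomial.eval_pow, Polynomial.eval_X,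
    ← hp, ← hq]
  ring

theorem IsLaurent.const_mul {f : ℂˣ → ℂ} (c : ℂ) (hf : IsLaurent f) :
    IsLaurent fun t => c * f t := by
  obtain ⟨N, p, hp⟩ := hf
  refine ⟨N, Polynomial.C c * p, fun t => ?_⟩
  simp only [Polynomial.eval_mul, Polynomial.eval_C, ← hp]
  ring

theorem IsLaurent.sum {ι : Type*} (s : Finset ι) {f : ι → ℂˣ → ℂ}
    (hf : ∀ i ∈ s, IsLaurent (f i)) : IsLaurent fun t => ∑ i ∈ s, f i t := by
  classical
  induction s using Finset.induction_on with
  | empty => exact ⟨0, 0, fun t => by simp⟩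
  | insert a s ha ih =>
    have h1 := (hf a (Finset.mem_insert_self _ _)).add
      (ih fun i hi => hf i (Finset.mem_insert_of_mem hi))
    simpa [Finset.sum_insert ha] using h1

theorem infinite_units : (Set.range fun t : ℂˣ => (t : ℂ)).Infinite := by
  have h : (Set.range fun t : ℂˣ => (t : ℂ)) = {0}ᶜ := by
    ext z
    simp only [Set.mem_range, Set.mem_compl_iff, Set.mem_singleton_iff]
    constructor
    · rintro ⟨t, rfl⟩
      exact t.ne_zero
    · intro hz
      exact ⟨Units.mk0 z hz, rfl⟩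
  rw [h]
  exact (Set.finite_singleton (0 : ℂ)).infinite_compl

/-- two Laurent polynomials with product zero, one of them with a nonzero value -/
theorem IsLaurent.eq_zero_of_mul {f g : ℂˣ → ℂ} (hf : IsLaurent f) (hg : IsLaurent g)
    (h : ∀ t, f t * g t = 0) (h1 : f 1 ≠ 0) (t : ℂˣ) : g t = 0 := by
  obtain ⟨N, p, hp⟩ := hf
  obtain ⟨M, q, hq⟩ := hg
  have hpq : p * q = 0 := by
    apply Polynomial.eq_zero_of_infinite_isRoot
    apply infinite_units.mono
    rintro _ ⟨t, rfl⟩
    simp only [Set.mem_ofPred_eq, Polynomial.IsRoot.def, Polynomial.eval_mul, ← hp, ← hq]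
    calc (t : ℂ) ^ N * f t * ((t : ℂ) ^ M * g t) = (t : ℂ) ^ N * (t : ℂ) ^ M * (f t * g t) := by
          ring
      _ = 0 := by rw [h, mul_zero]
  rcases mul_eq_zero.1 hpq with h2 | h2
  · exfalso
    have := hp 1
    rw [h2] at this
    simp at this
    exact h1 this
  · have := hq t
    rw [h2, Polynomial.eval_zero] at this
    exact (mul_eq_zero.1 this).resolve_left (pow_ne_zero _ t.ne_zero)

end Pool.Agent.Q76.Sub
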