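import Pool.Agent.Q76.Sub.Basic

/-!
# Invariants of `2 × 2 × 2 × 2` tensors
-/

set_option autoImplicit false

namespace Pool.Agent.Q76.Sub

open Filter Topology

/-- `2 × 2 × 2 × 2` arrays -/
abbrev Cube := Fin 2 → Fin 2 → Fin 2 → Fin 2 → ℂ

/-- the invariant of degree two -/
def invH (R : Cube) : ℂ :=
  R 0 0 0 0 * R 1 1 1 1 - R 0 0 0 1 * R 1 1 1 0 - R 0 0 1 0 * R 1 1 0 1 +
    R 0 0 1 1 * R 1 1 0 0 - R 0 1 0 0 * R 1 0 1 1 + R 0 1 0 1 * R 1 0 1 0 +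
    R 0 1 1 0 * R 1 0 0 1 - R 0 1 1 1 * R 1 0 0 0

/-- the determinant of the flattening `12 | 34` -/
def invD (R : Cube) : ℂ :=
    R 0 0 0 0 * R 0 1 0 1 * R 1 0 1 0 * R 1 1 1 1
    - R 0 0 0 0 * R 0 1 0 1 * R 1 0 1 1 * R 1 1 1 0
    - R 0 0 0 0 * R 0 1 1 0 * R 1 0 0 1 * R 1 1 1 1
    + R 0 0 0 0 * R 0 1 1 0 * R 1 0 1 1 * R 1 1 0 1
    + R 0 0 0 0 * R 0 1 1 1 * R 1 0 0 1 * R 1 1 1 0
    - R 0 0 0 0 * R 0 1 1 1 * R 1 0 1 0 * R 1 1 0 1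
    - R 0 0 0 1 * R 0 1 0 0 * R 1 0 1 0 * R 1 1 1 1
    + R 0 0 0 1 * R 0 1 0 0 * R 1 0 1 1 * R 1 1 1 0
    + R 0 0 0 1 * R 0 1 1 0 * R 1 0 0 0 * R 1 1 1 1
    - R 0 0 0 1 * R 0 1 1 0 * R 1 0 1 1 * R 1 1 0 0
    - R 0 0 0 1 * R 0 1 1 1 * R 1 0 0 0 * R 1 1 1 0
    + R 0 0 0 1 * R 0 1 1 1 * R 1 0 1 0 * R 1 1 0 0
    + R 0 0 1 0 * R 0 1 0 0 * R 1 0 0 1 * R 1 1 1 1
    - R 0 0 1 0 * R 0 1 0 0 * R 1 0 1 1 * R 1 1 0 1
    - R 0 0 1 0 * R 0 1 0 1 * R 1 0 0 0 * R 1 1 1 1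
    + R 0 0 1 0 * R 0 1 0 1 * R 1 0 1 1 * R 1 1 0 0
    + R 0 0 1 0 * R 0 1 1 1 * R 1 0 0 0 * R 1 1 0 1
    - R 0 0 1 0 * R 0 1 1 1 * R 1 0 0 1 * R 1 1 0 0
    - R 0 0 1 1 * R 0 1 0 0 * R 1 0 0 1 * R 1 1 1 0
    + R 0 0 1 1 * R 0 1 0 0 * R 1 0 1 0 * R 1 1 0 1
    + R 0 0 1 1 * R 0 1 0 1 * R 1 0 0 0 * R 1 1 1 0
    - R 0 0 1 1 * R 0 1 0 1 * R 1 0 1 0 * R 1 1 0 0
    - R 0 0 1 1 * R 0 1 1 0 * R 1 0 0 0 * R 1 1 0 1
    + R 0 0 1 1 * R 0 1 1 0 * R 1 0 0 1 * R 1 1 0 0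

/-- the determinant of the flattening `13 | 24` -/
def invE (R : Cube) : ℂ :=
    R 0 0 0 0 * R 0 0 1 1 * R 1 1 0 0 * R 1 1 1 1
    - R 0 0 0 0 * R 0 0 1 1 * R 1 1 0 1 * R 1 1 1 0
    - R 0 0 0 0 * R 0 1 1 0 * R 1 0 0 1 * R 1 1 1 1
    + R 0 0 0 0 * R 0 1 1 0 * R 1 1 0 1 * R 1 0 1 1
    + R 0 0 0 0 * R 0 1 1 1 * R 1 0 0 1 * R 1 1 1 0
    - R 0 0 0 0 * R 0 1 1 1 * R 1 1 0 0 * R 1 0 1 1
    - R 0 0 0 1 * R 0 0 1 0 * R 1 1 0 0 * R 1 1 1 1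
    + R 0 0 0 1 * R 0 0 1 0 * R 1 1 0 1 * R 1 1 1 0
    + R 0 0 0 1 * R 0 1 1 0 * R 1 0 0 0 * R 1 1 1 1
    - R 0 0 0 1 * R 0 1 1 0 * R 1 1 0 1 * R 1 0 1 0
    - R 0 0 0 1 * R 0 1 1 1 * R 1 0 0 0 * R 1 1 1 0
    + R 0 0 0 1 * R 0 1 1 1 * R 1 1 0 0 * R 1 0 1 0
    + R 0 1 0 0 * R 0 0 1 0 * R 1 0 0 1 * R 1 1 1 1
    - R 0 1 0 0 * R 0 0 1 0 * R 1 1 0 1 * R 1 0 1 1
    - R 0 1 0 0 * R 0 0 1 1 * R 1 0 0 0 * R 1 1 1 1
    + R 0 1 0 0 * R 0 0 1 1 * R 1 1 0 1 * R 1 0 1 0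
    + R 0 1 0 0 * R 0 1 1 1 * R 1 0 0 0 * R 1 0 1 1
    - R 0 1 0 0 * R 0 1 1 1 * R 1 0 0 1 * R 1 0 1 0
    - R 0 1 0 1 * R 0 0 1 0 * R 1 0 0 1 * R 1 1 1 0
    + R 0 1 0 1 * R 0 0 1 0 * R 1 1 0 0 * R 1 0 1 1
    + R 0 1 0 1 * R 0 0 1 1 * R 1 0 0 0 * R 1 1 1 0
    - R 0 1 0 1 * R 0 0 1 1 * R 1 1 0 0 * R 1 0 1 0
    - R 0 1 0 1 * R 0 1 1 0 * R 1 0 0 0 * R 1 0 1 1
    + R 0 1 0 1 * R 0 1 1 0 * R 1 0 0 1 * R 1 0 1 0

def leg0 (g : Matrix (Fin 2) (Fin 2) ℂ) (R : Cube) : Cube := fun i j k l => ∑ a, g i a * R a j k l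
def leg1 (g : Matrix (Fin 2) (Fin 2) ℂ) (R : Cube) : Cube := fun i j k l => ∑ a, g j a * R i a k l
def leg2 (g : Matrix (Fin 2) (Fin 2) ℂ) (R : Cube) : Cube := fun i j k l => ∑ a, g k a * R i j a l
def leg3 (g : Matrix (Fin 2) (Fin 2) ℂ) (R : Cube) : Cube := fun i j k l => ∑ a, g l a * R i j k a

theorem invH_leg0 (g : Matrix (Fin 2) (Fin 2) ℂ) (R : Cube) :
    invH (leg0 g R) = g.det * invH R := by
  simp only [invH, leg0, Fin.sum_univ_two, Matrix.det_fin_two]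
  ring

theorem invH_leg1 (g : Matrix (Fin 2) (Fin 2) ℂ) (R : Cube) :
    invH (leg1 g R) = g.det * invH R := by
  simp only [invH, leg1, Fin.sum_univ_two, Matrix.det_fin_two]
  ring

theorem invH_leg2 (g : Matrix (Fin 2) (Fin 2) ℂ) (R : Cube) :
    invH (leg2 g R) = g.det * invH R := by
  simp only [invH, leg2, Fin.sum_univ_two, Matrix.det_fin_two]
  ring

theorem invH_leg3 (g : Matrix (Fin 2) (Fin 2) ℂ) (R : Cube) :
    invH (leg3 g R) = g.det * invH R := by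
  simp only [invH, leg3, Fin.sum_univ_two, Matrix.det_fin_two]
  ring

theorem invD_leg0 (g : Matrix (Fin 2) (Fin 2) ℂ) (R : Cube) :
    invD (leg0 g R) = g.det ^ 2 * invD R := by
  simp only [invD, leg0, Fin.sum_univ_two, Matrix.det_fin_two]
  ring

theorem invD_leg1 (g : Matrix (Fin 2) (Fin 2) ℂ) (R : Cube) :
    invD (leg1 g R) = g.det ^ 2 * invD R := by
  simp only [invD, leg1, Fin.sum_univ_two, Matrix.det_fin_two]
  ring

theorem invD_leg2 (g : Matrix (Fin 2) (Fin 2) ℂ) (R : Cube) :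
    invD (leg2 g R) = g.det ^ 2 * invD R := by
  simp only [invD, leg2, Fin.sum_univ_two, Matrix.det_fin_two]
  ring

theorem invD_leg3 (g : Matrix (Fin 2) (Fin 2) ℂ) (R : Cube) :
    invD (leg3 g R) = g.det ^ 2 * invD R := by
  simp only [invD, leg3, Fin.sum_univ_two, Matrix.det_fin_two]
  ring

theorem invE_leg0 (g : Matrix (Fin 2) (Fin 2) ℂ) (R : Cube) :
    invE (leg0 g R) = g.det ^ 2 * invE R := by
  simp only [invE, leg0, Fin.sum_univ_two, Matrix.det_fin_two]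
  ring

theorem invE_leg1 (g : Matrix (Fin 2) (Fin 2) ℂ) (R : Cube) :
    invE (leg1 g R) = g.det ^ 2 * invE R := by
  simp only [invE, leg1, Fin.sum_univ_two, Matrix.det_fin_two]
  ring

theorem invE_leg2 (g : Matrix (Fin 2) (Fin 2) ℂ) (R : Cube) :
    invE (leg2 g R) = g.det ^ 2 * invE R := by
  simp only [invE, leg2, Fin.sum_univ_two, Matrix.det_fin_two]
  ring

theorem invE_leg3 (g : Matrix (Fin 2) (Fin 2) ℂ) (R : Cube) :
    invE (leg3 g R) = g.det ^ 2 * invE R := by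
  simp only [invE, leg3, Fin.sum_univ_two, Matrix.det_fin_two]
  ring

/-- the array of a tensor -/
def cube (S : Tensor 4 2) : Cube := fun i j k l => S ![i, j, k, l]

/-- functions on `Fin 4` as quadruples -/
def quad (n : ℕ) : (Fin n × Fin n × Fin n × Fin n) ≃ (Fin 4 → Fin n) where
  toFun x := ![x.1, x.2.1, x.2.2.1, x.2.2.2]
  invFun f := (f 0, f 1, f 2, f 3)
  left_inv x := by simp
  right_inv f := by
    funext i
    fin_cases i <;> rfl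

theorem sum_four {n : ℕ} (F : (Fin 4 → Fin n) → ℂ) :
    ∑ j, F j = ∑ a, ∑ b, ∑ c, ∑ e, F ![a, b, c, e] := by
  rw [← Fintype.sum_equiv (quad n) (fun x => F (quad n x)) F fun _ => rfl]
  simp only [Fintype.sum_prod_type]
  rfl

theorem cube_act (B : Fin 4 → Matrix (Fin 2) (Fin 2) ℂ) (S : Tensor 4 2) :
    cube (act B S) = leg3 (B 3) (leg2 (B 2) (leg1 (B 1) (leg0 (B 0) (cube S)))) := by
  funext i j k l
  simp only [cube, act, sum_four, Fin.sum_univ_two, Fin.prod_univ_four, leg0, leg1, leg2, leg3]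
  simp only [Matrix.cons_val_zero, Matrix.cons_val_one, Matrix.cons_val]
  ring

theorem invH_act (B : Fin 4 → Matrix (Fin 2) (Fin 2) ℂ) (S : Tensor 4 2) :
    invH (cube (act B S)) = (∏ k, (B k).det) * invH (cube S) := by
  rw [cube_act, invH_leg3, invH_leg2, invH_leg1, invH_leg0, Fin.prod_univ_four]
  ring

theorem invD_act (B : Fin 4 → Matrix (Fin 2) (Fin 2) ℂ) (S : Tensor 4 2) :
    invD (cube (act B S)) = (∏ k, (B k).det) ^ 2 * invD (cube S) := by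
  rw [cube_act, invD_leg3, invD_leg2, invD_leg1, invD_leg0, Fin.prod_univ_four]
  ring

theorem invE_act (B : Fin 4 → Matrix (Fin 2) (Fin 2) ℂ) (S : Tensor 4 2) :
    invE (cube (act B S)) = (∏ k, (B k).det) ^ 2 * invE (cube S) := by
  rw [cube_act, invE_leg3, invE_leg2, invE_leg1, invE_leg0, Fin.prod_univ_four]
  ring

theorem cube_unit (i j k l : Fin 2) :
    cube (unitT 4 2 2) i j k l = if i = j ∧ j = k ∧ k = l then 1 else 0 := by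
  have h2 : (Finset.univ.filter fun b : Fin 2 => b.val < 2) = Finset.univ := by decide
  have h3 : ∀ b x : Fin 2, (1 : Matrix (Fin 2) (Fin 2) ℂ) x b = if x = b then 1 else 0 :=
    fun b x => Matrix.one_apply
  rw [cube, ← act_one (unitT 4 2 2), act_unitT, h2, Fin.sum_univ_two, Fin.prod_univ_four,
    Fin.prod_univ_four]
  simp only [h3, Matrix.cons_val_zero, Matrix.cons_val_one, Matrix.cons_val]
  revert i j k l
  simp only [Fin.forall_fin_two]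
  simp

theorem invH_unit : invH (cube (unitT 4 2 2)) = 1 := by
  simp only [invH, cube_unit]
  simp

theorem invD_unit : invD (cube (unitT 4 2 2)) = 0 := by
  simp only [invD, cube_unit]
  simp

theorem invE_unit : invE (cube (unitT 4 2 2)) = 0 := by
  simp only [invE, cube_unit]
  simp

theorem continuous_cube (i j k l : Fin 2) : Continuous fun S : Tensor 4 2 => cube S i j k l :=
  continuous_apply _

theorem continuous_invH : Continuous fun S : Tensor 4 2 => invH (cube S) := by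
  unfold invH
  have := continuous_cube
  fun_prop

theorem continuous_invD : Continuous fun S : Tensor 4 2 => invD (cube S) := by
  unfold invD
  have := continuous_cube
  fun_prop

theorem continuous_invE : Continuous fun S : Tensor 4 2 => invE (cube S) := by
  unfold invE
  have := continuous_cube
  fun_prop

end Pool.Agent.Q76.Sub
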