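import Pool.Agent.Q76.Sub.Upper

/-!
# The border subrank of the example is at least two
-/

set_option autoImplicit false

namespace Pool.Agent.Q76.Sub

open Filter Topology

/-- coefficients of the error terms -/
noncomputable def errC : Fin 3 → Fin 3 → Fin 3 → Fin 3 → ℂ
  | 0, 0, 0, 0 => -1 / 2
  | 0, 0, 0, 1 => -1 / 2
  | 0, 0, 1, 0 => 1 / 2
  | 0, 0, 1, 1 => 1 / 2
  | 0, 1, 0, 1 => -1 / 2
  | 0, 1, 1, 1 => 1 / 2
  | 1, 0, 0, 1 => -1 / 2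
  | 1, 0, 1, 1 => 1 / 2
  | 1, 1, 0, 0 => 1 / 2
  | 1, 1, 0, 1 => 1 / 2
  | 1, 1, 1, 0 => -1 / 2
  | 1, 1, 1, 1 => -1 / 2
  | 2, 0, 0, 0 => -1 / 2
  | 2, 0, 0, 1 => -1 / 2
  | 2, 0, 1, 0 => 1 / 2
  | 2, 0, 1, 1 => 1 / 2
  | 2, 1, 1, 0 => 1 / 1
  | 2, 1, 1, 1 => 1 / 1
  | _, _, _, _ => 0

/-- exponents of the error terms -/
def errK : Fin 3 → Fin 3 → Fin 3 → Fin 3 → ℕ
  | 0, 0, 0, 0 => 2
  | 0, 0, 0, 1 => 4
  | 0, 0, 1, 0 => 2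
  | 0, 0, 1, 1 => 4
  | 0, 1, 0, 1 => 0
  | 0, 1, 1, 1 => 0
  | 1, 0, 0, 1 => 0
  | 1, 0, 1, 1 => 0
  | 1, 1, 0, 0 => 0
  | 1, 1, 0, 1 => 2
  | 1, 1, 1, 0 => 0
  | 1, 1, 1, 1 => 2
  | 2, 0, 0, 0 => 4
  | 2, 0, 0, 1 => 6
  | 2, 0, 1, 0 => 4
  | 2, 0, 1, 1 => 6
  | 2, 1, 1, 0 => 3
  | 2, 1, 1, 1 => 5
  | _, _, _, _ => 0

/-- the degenerating matrices -/
noncomputable def degMat (t : ℂ) : Fin 4 → Matrix (Fin 3) (Fin 3) ℂ :=
  ![!![(2 * t ^ 11)⁻¹ * (-t ^ 7), (2 * t ^ 11)⁻¹ * t ^ 4, 0;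
      (2 * t ^ 11)⁻¹ * (-t ^ 6), 0, (2 * t ^ 11)⁻¹; 0, 0, (2 * t ^ 11)⁻¹ * t ^ 6],
    !![t ^ 4, 0, 0; t ^ 3, 1, 0; 0, 0, 1],
    !![-1, t ^ 3, 0; 1, t ^ 3, 0; 0, 0, 1],
    !![1, t ^ 6, 0; 0, t ^ 8, 0; 0, 0, 1]]

theorem det_degMat {t : ℂ} (ht : t ≠ 0) (k : Fin 4) : (degMat t k).det ≠ 0 := by
  have h2 : (2 * t ^ 11)⁻¹ ≠ 0 := inv_ne_zero (mul_ne_zero two_ne_zero (pow_ne_zero _ ht))
  fin_cases k
  · simp only [degMat, Matrix.det_fin_three]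
    simp
    exact ht
  · simp only [degMat, Matrix.det_fin_three]
    simp
    exact ht
  · simp only [degMat, Matrix.det_fin_three]
    simp
    rw [← neg_add', neg_eq_zero, ← two_mul]
    exact mul_ne_zero two_ne_zero (pow_ne_zero _ ht)
  · simp only [degMat, Matrix.det_fin_three]
    simp
    exact ht

theorem unitT_apply (a b c e : Fin 3) :
    unitT 4 3 2 ![a, b, c, e] =
      (if a = 0 ∧ b = 0 ∧ c = 0 ∧ e = 0 then 1 else 0) +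
      (if a = 1 ∧ b = 1 ∧ c = 1 ∧ e = 1 then 1 else 0) := by
  have h3 : (Finset.univ.filter fun b : Fin 3 => b.val < 2) = {0, 1} := by decide
  have h1 : ∀ b x : Fin 3, (1 : Matrix (Fin 3) (Fin 3) ℂ) x b = if x = b then 1 else 0 :=
    fun b x => Matrix.one_apply
  rw [← act_one (unitT 4 3 2), act_unitT, h3, Finset.sum_pair (by decide), Fin.prod_univ_four,
    Fin.prod_univ_four]
  simp only [h1, Matrix.cons_val_zero, Matrix.cons_val_one, Matrix.cons_val]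
  congr 1
  · by_cases h1 : a = 0 <;> by_cases h2 : b = 0 <;> by_cases h3 : c = 0 <;> by_cases h4 : e = 0 <;>
      simp [h1, h2, h3, h4]
  · by_cases h1 : a = 1 <;> by_cases h2 : b = 1 <;> by_cases h3 : c = 1 <;> by_cases h4 : e = 1 <;>
      simp [h1, h2, h3, h4]

set_option maxHeartbeats 4000000 in
theorem act_degMat {t : ℂ} (ht : t ≠ 0) (a b c e : Fin 3) :
    act (degMat t) exampleT ![a, b, c, e] =
      unitT 4 3 2 ![a, b, c, e] + errC a b c e * t ^ (errK a b c e + 1) := by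
  rw [act_exampleT, unitT_apply]
  fin_cases a <;> fin_cases b <;> fin_cases c <;> fin_cases e <;>
    simp [degMat, errC, errK]
  all_goals field_simp
  all_goals ring

end Pool.Agent.Q76.Sub
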