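import Pool.Agent.Q76.Sub.Inv

/-!
# One-parameter subgroups with limit `I_r`, `r = 2, 3`, on `(ℂ^3)^{⊗ 4}`
-/

set_option autoImplicit false

namespace Pool.Agent.Q76.Sub

open Filter Topology

instance : NeBot (comap (fun t : ℂˣ => (t : ℂ)) (𝓝 0)) := by
  rw [comap_neBot_iff]
  intro s hs
  have h1 : (s ∩ {0}ᶜ).Nonempty := by
    have h2 : s ∩ {0}ᶜ ∈ 𝓝[≠] (0 : ℂ) := inter_mem (mem_nhdsWithin_of_mem_nhds hs) self_mem_nhdsWithin
    exact nonempty_of_mem h2
  obtain ⟨z, hz, hz0⟩ := h1
  exact ⟨Units.mk0 z hz0, hz⟩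

theorem tendsto_mul_unit (s : ℂˣ) :
    Tendsto (fun t : ℂˣ => s * t) (comap (fun t : ℂˣ => (t : ℂ)) (𝓝 0))
      (comap (fun t : ℂˣ => (t : ℂ)) (𝓝 0)) := by
  rw [tendsto_comap_iff]
  have h1 : Tendsto (fun t : ℂˣ => (t : ℂ)) (comap (fun t : ℂˣ => (t : ℂ)) (𝓝 0)) (𝓝 0) :=
    tendsto_comap
  have h2 := h1.const_mul (s : ℂ)
  rw [mul_zero] at h2
  refine h2.congr fun t => ?_
  simp

/-- three vectors whose products vanish off the diagonal -/
theorem vec_aux {x y z : Fin 3 → ℂ} (h : ∀ i j k, ¬(i = j ∧ j = k) → x i * y j * z k = 0)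
    (hx : ∃ i, x i ≠ 0) (hy : ∃ i, y i ≠ 0) (hz : ∃ i, z i ≠ 0) :
    (∀ b b', b ≠ b' → x b * x b' = 0) ∧ (∀ b b', b ≠ b' → y b * y b' = 0) ∧
      (∀ b b', b ≠ b' → z b * z b' = 0) := by
  obtain ⟨i, hi⟩ := hx
  obtain ⟨j, hj⟩ := hy
  obtain ⟨k, hk⟩ := hz
  have key : ∀ i j k, x i ≠ 0 → y j ≠ 0 → z k ≠ 0 → i = j ∧ j = k := by
    intro i j k hi hj hk
    by_contra h1
    exact mul_ne_zero (mul_ne_zero hi hj) hk (h i j k h1)
  refine ⟨fun b b' hb => ?_, fun b b' hb => ?_, fun b b' hb => ?_⟩
  · by_contra h1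
    rw [mul_eq_zero, not_or] at h1
    exact hb ((key b j k h1.1 hj hk).1.trans (key b' j k h1.2 hj hk).1.symm)
  · by_contra h1
    rw [mul_eq_zero, not_or] at h1
    exact hb ((key i b k hi h1.1 hk).1.symm.trans (key i b' k hi h1.2 hk).1)
  · by_contra h1
    rw [mul_eq_zero, not_or] at h1
    exact hb ((key i j b hi hj h1.1).2.symm.trans (key i j b' hi hj h1.2).2)

/-- columns of a stabilising tuple of matrices -/
theorem column_aux {r : ℕ} (G L : Fin 4 → Matrix (Fin 3) (Fin 3) ℂ) (hL : ∀ k, L k * G k = 1)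
    (hG : act G (unitT 4 3 r) = unitT 4 3 r) (a : Fin 3) (ha : a.val < r) (k : Fin 4)
    (b b' : Fin 3) (hb : b ≠ b') : G k b a * G k b' a = 0 := by
  have hne : ∀ k, ∃ i, G k i a ≠ 0 := by
    intro k
    by_contra h
    push Not at h
    have h1 := congrFun (congrFun (hL k) a) a
    rw [Matrix.mul_apply, Matrix.one_apply_eq] at h1
    simp [h] at h1
  -- contract leg 3
  have e3 : ∀ i0 i1 i2, ¬(i0 = i1 ∧ i1 = i2) → G 0 i0 a * G 1 i1 a * G 2 i2 a = 0 := by
    intro i0 i1 i2 hne
    have h1 : act ![1, 1, 1, L 3] (act G (unitT 4 3 r)) = act ![G 0, G 1, G 2, 1] (unitT 4 3 r) := by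
      rw [act_act]
      congr 1
      funext k
      fin_cases k <;> simp [hL]
    rw [hG] at h1
    have h2 := congrFun h1 ![i0, i1, i2, a]
    rw [act_unitT, act_unitT] at h2
    simp only [Fin.prod_univ_four, Matrix.cons_val_zero, Matrix.cons_val_one,
      Matrix.cons_val] at h2
    rw [Finset.sum_eq_zero, Finset.sum_eq_single a] at h2
    · rw [Matrix.one_apply_eq, mul_one] at h2
      exact h2.symm
    · intro b _ hb
      rw [Matrix.one_apply_ne hb.symm, mul_zero]
    · intro h
      exact absurd (Finset.mem_filter.2 ⟨Finset.mem_univ a, ha⟩) h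
    · intro b _
      by_cases h0 : i0 = b
      · by_cases h1 : i1 = b
        · have h2 : i2 ≠ b := fun h2 => hne ⟨h0.trans h1.symm, h1.trans h2.symm⟩
          rw [Matrix.one_apply_ne h2, mul_zero, zero_mul]
        · rw [Matrix.one_apply_ne h1, mul_zero, zero_mul, zero_mul]
      · rw [Matrix.one_apply_ne h0, zero_mul, zero_mul, zero_mul]
  -- contract leg 0
  have e0 : ∀ i1 i2 i3, ¬(i1 = i2 ∧ i2 = i3) → G 1 i1 a * G 2 i2 a * G 3 i3 a = 0 := by
    intro i1 i2 i3 hne
    have h1 : act ![L 0, 1, 1, 1] (act G (unitT 4 3 r)) = act ![1, G 1, G 2, G 3] (unitT 4 3 r) := by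
      rw [act_act]
      congr 1
      funext k
      fin_cases k <;> simp [hL]
    rw [hG] at h1
    have h2 := congrFun h1 ![a, i1, i2, i3]
    rw [act_unitT, act_unitT] at h2
    simp only [Fin.prod_univ_four, Matrix.cons_val_zero, Matrix.cons_val_one,
      Matrix.cons_val] at h2
    rw [Finset.sum_eq_zero, Finset.sum_eq_single a] at h2
    · rw [Matrix.one_apply_eq, one_mul] at h2
      exact h2.symm
    · intro b _ hb
      rw [Matrix.one_apply_ne hb.symm, zero_mul, zero_mul, zero_mul]
    · intro h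
      exact absurd (Finset.mem_filter.2 ⟨Finset.mem_univ a, ha⟩) h
    · intro b _
      by_cases h0 : i1 = b
      · by_cases h1 : i2 = b
        · have h2 : i3 ≠ b := fun h2 => hne ⟨h0.trans h1.symm, h1.trans h2.symm⟩
          rw [Matrix.one_apply_ne h2, mul_zero]
        · rw [Matrix.one_apply_ne h1, mul_zero, zero_mul]
      · rw [Matrix.one_apply_ne h0, mul_zero, zero_mul, zero_mul]
  have v3 := vec_aux e3 (hne 0) (hne 1) (hne 2)
  have v0 := vec_aux e0 (hne 1) (hne 2) (hne 3)
  fin_cases k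
  · exact v3.1 b b' hb
  · exact v3.2.1 b b' hb
  · exact v3.2.2 b b' hb
  · exact v0.2.2 b b' hb

/-- a Laurent polynomial with infinitely many zeros vanishes -/
theorem IsLaurent.eq_zero_of_infinite {f : ℂˣ → ℂ} (hf : IsLaurent f)
    (h : {t : ℂˣ | f t = 0}.Infinite) (t : ℂˣ) : f t = 0 := by
  obtain ⟨N, p, hp⟩ := hf
  have hp0 : p = 0 := by
    apply Polynomial.eq_zero_of_infinite_isRoot
    have h1 := h.image (f := fun t : ℂˣ => (t : ℂ)) Units.val_injective.injOn
    apply h1.mono
    rintro _ ⟨t, ht, rfl⟩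
    simp only [Set.mem_ofPred_eq, Polynomial.IsRoot.def, ← hp]
    rw [Set.mem_ofPred_eq] at ht
    rw [ht, mul_zero]
  have := hp t
  rw [hp0, Polynomial.eval_zero] at this
  exact (mul_eq_zero.1 this).resolve_left (pow_ne_zero _ t.ne_zero)

theorem infinite_torsion : {t : ℂˣ | ∃ n : ℕ, 0 < n ∧ t ^ n = 1}.Infinite := by
  have h : ∀ n : ℕ, ∃ t : ℂˣ, orderOf t = n + 1 := by
    intro n
    have h1 := Complex.isPrimitiveRoot_exp (n + 1) (Nat.succ_ne_zero n)
    obtain ⟨u, hu⟩ := h1.isUnit (Nat.succ_ne_zero n)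
    refine ⟨u, ?_⟩
    rw [← hu] at h1
    rw [← (IsPrimitiveRoot.coe_units_iff.1 h1).eq_orderOf]
  choose t ht using h
  refine Set.infinite_of_injective_forall_mem (f := t) ?_ fun n => ⟨n + 1, Nat.succ_pos n, ?_⟩
  · intro a b hab
    have := ht a
    rw [hab, ht b] at this
    omega
  · rw [← ht n]
    exact pow_orderOf_eq_one _

/-- splitting of an extension of characters -/
theorem split_aux {x c p : ℂˣ → ℂ} (hx : IsLaurent x) (hx1 : x 1 = 0)
    (hc : ∀ s t, c (s * t) = c s * c t) (hc1 : c 1 = 1)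
    (h : ∀ s t, x (s * t) = c s * x t + x s * p t) :
    ∃ α : ℂ, ∀ t, x t = α * (c t - p t) := by
  have hsym : ∀ s t, x t * (c s - p s) = x s * (c t - p t) := by
    intro s t
    have h1 := h s t
    have h2 := h t s
    rw [mul_comm t s, h1] at h2
    linear_combination h2
  by_cases hs : ∃ s, c s - p s ≠ 0
  · obtain ⟨s, hs⟩ := hs
    refine ⟨x s / (c s - p s), fun t => ?_⟩
    have := hsym s t
    field_simp
    linear_combination this
  · push Not at hs
    refine ⟨0, fun t => ?_⟩
    rw [zero_mul]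
    have hcp : ∀ t, p t = c t := fun t => (sub_eq_zero.1 (hs t)).symm
    have hpow : ∀ (t : ℂˣ) (n : ℕ), x (t ^ n) * c t = n * c (t ^ n) * x t := by
      intro t n
      induction n with
      | zero => simp [hx1]
      | succ n ih =>
        rw [pow_succ, h, hcp, hc]
        push_cast
        linear_combination c t * ih
    have hcne : ∀ t, c t ≠ 0 := by
      intro t h0
      have := hc t t⁻¹
      rw [mul_inv_cancel, hc1, h0, zero_mul] at this
      exact one_ne_zero this
    apply hx.eq_zero_of_infinite (infinite_torsion.mono ?_)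
    rintro t ⟨n, hn, ht⟩
    have h1 := hpow t n
    rw [ht, hx1, zero_mul, hc1, mul_one] at h1
    have h2 : (n : ℂ) ≠ 0 := by exact_mod_cast hn.ne'
    exact (mul_eq_zero.1 h1.symm).resolve_left h2

theorem exists_restriction (M : Fin 4 → ℂˣ → Matrix (Fin 3) (Fin 3) ℂ) (hone : ∀ k, M k 1 = 1)
    (hmul : ∀ k s t, M k (s * t) = M k s * M k t) (hLau : ∀ k i j, IsLaurent fun t => M k t i j)
    (T : Tensor 4 3) (r : ℕ) (hr : r = 2 ∨ r = 3)
    (hlim : Tendsto (fun t => act (fun k => M k t) T) (comap (fun t : ℂˣ => (t : ℂ)) (𝓝 0))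
      (𝓝 (unitT 4 3 r))) :
    ∃ π : Fin 4 → Matrix (Fin 2) (Fin 3) ℂ, invH (cube (act π T)) = 1 ∧
      invD (cube (act π T)) = 0 ∧ invE (cube (act π T)) = 0 := by
  have hr2 : 2 ≤ r := by omega
  -- the unit tensor is fixed
  have hfix : ∀ s, act (fun k => M k s) (unitT 4 3 r) = unitT 4 3 r := by
    intro s
    have h1 : Tendsto (fun t => act (fun k => M k s) (act (fun k => M k t) T))
        (comap (fun t : ℂˣ => (t : ℂ)) (𝓝 0)) (𝓝 (act (fun k => M k s) (unitT 4 3 r))) :=
      ((continuous_act _).tendsto _).comp hlim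
    have h2 := hlim.comp (tendsto_mul_unit s)
    refine tendsto_nhds_unique h1 (h2.congr fun t => ?_)
    simp only [Function.comp, act_act, hmul]
  -- the first `r` columns are diagonal
  have hcol : ∀ (k : Fin 4) (a b : Fin 3), a.val < r → b ≠ a → ∀ t, M k t b a = 0 := by
    intro k a b ha hb t
    refine (hLau k a a).eq_zero_of_mul (hLau k b a) (fun t => ?_) ?_ t
    · refine column_aux (fun k => M k t) (fun k => M k t⁻¹) (fun k => ?_) (hfix t) a ha k a b
        hb.symm
      rw [← hmul, inv_mul_cancel, hone]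
    · rw [hone, Matrix.one_apply_eq]
      exact one_ne_zero
  have hdm : ∀ (k : Fin 4) (a : Fin 3), a.val < r → ∀ s t, M k (s * t) a a =
      M k s a a * M k t a a := by
    intro k a ha s t
    rw [hmul, Matrix.mul_apply, Finset.sum_eq_single a]
    · intro b _ hb
      rw [hcol k a b ha hb, mul_zero]
    · simp
  have hd1 : ∀ (k : Fin 4) (a : Fin 3), M k 1 a a = 1 := by
    intro k a
    rw [hone, Matrix.one_apply_eq]
  have hprod : ∀ (a : Fin 3), a.val < r → ∀ t, ∏ k, M k t a a = 1 := by
    intro a ha t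
    have h1 := congrFun (hfix t) fun _ => a
    rw [act_unitT] at h1
    rw [Finset.sum_eq_single a] at h1
    · rw [h1, ← act_one (unitT 4 3 r), act_unitT, Finset.sum_eq_single a]
      · simp
      · intro b _ hb
        rw [Finset.prod_eq_zero (Finset.mem_univ 0)]
        exact Matrix.one_apply_ne hb.symm
      · intro h
        exact absurd (Finset.mem_filter.2 ⟨Finset.mem_univ a, ha⟩) h
    · intro b hb hba
      rw [Finset.prod_eq_zero (Finset.mem_univ 0)]
      exact hcol 0 b a (Finset.mem_filter.1 hb).2 hba.symm t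
    · intro h
      exact absurd (Finset.mem_filter.2 ⟨Finset.mem_univ a, ha⟩) h
  -- the complements
  have hsplit : ∀ (k : Fin 4) (a b : Fin 3), a.val < 2 → b.val < 2 → b ≠ a →
      ∃ α : ℂ, (r = 3 → α = 0) ∧ ∀ t, M k t a 2 = α * (M k t a a - M k t 2 2) := by
    intro k a b ha hb hba
    rcases hr with hr | hr
    · have := split_aux (x := fun t => M k t a 2) (c := fun t => M k t a a)
        (p := fun t => M k t 2 2) (hLau k a 2) (by
          simp only [hone]
          apply Matrix.one_apply_ne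
          rintro rfl
          simp at ha) (hdm k a (by omega)) (hd1 k a) (fun s t => by
          simp only [hmul, Matrix.mul_apply, Fin.sum_univ_three]
          have e1 : M k s a b = 0 := hcol k b a (by omega) hba.symm s
          have hab : (a = 0 ∧ b = 1) ∨ (a = 1 ∧ b = 0) := by omega
          rcases hab with ⟨rfl, rfl⟩ | ⟨rfl, rfl⟩
          · rw [e1]; ring
          · rw [e1]; ring)
      obtain ⟨α, hα⟩ := this
      exact ⟨α, fun h => by omega, hα⟩
    · refine ⟨0, fun _ => rfl, fun t => ?_⟩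
      rw [zero_mul]
      refine hcol k 2 a ?_ ?_ t
      · rw [hr]; decide
      · rintro rfl
        simp at ha
  choose α hα3 hα using fun k => hsplit k 0 1 (by decide) (by decide) (by decide)
  choose β hβ3 hβ using fun k => hsplit k 1 0 (by decide) (by decide) (by decide)
  let π : Fin 4 → Matrix (Fin 2) (Fin 3) ℂ := fun k => !![1, 0, α k; 0, 1, β k]
  let D : ℂˣ → Fin 4 → Matrix (Fin 2) (Fin 2) ℂ := fun t k => !![M k t 0 0, 0; 0, M k t 1 1]
  have hcomm : ∀ k t, π k * M k t = D t k * π k := by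
    intro k t
    have e1 := hcol k 0 1 (by simp; omega) (by decide) t
    have e2 := hcol k 0 2 (by simp; omega) (by decide) t
    have e3 := hcol k 1 0 (by simp; omega) (by decide) t
    have e4 := hcol k 1 2 (by simp; omega) (by decide) t
    have e5 := hα k t
    have e6 := hβ k t
    ext i j
    fin_cases i <;> fin_cases j <;>
      simp [π, D, Matrix.mul_apply, Fin.sum_univ_three, Fin.sum_univ_two, e1, e2, e3, e4, e5, e6]
    all_goals ring
  have hunit : act π (unitT 4 3 r) = unitT 4 2 2 := by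
    funext i
    rw [← act_one (unitT 4 2 2), act_unitT, act_unitT]
    have h2 : (Finset.univ.filter fun b : Fin 2 => b.val < 2) = Finset.univ := by decide
    rw [h2, Fin.sum_univ_two]
    have e0 : ∀ k (x : Fin 2), π k x 0 = (1 : Matrix (Fin 2) (Fin 2) ℂ) x 0 := by
      intro k x; rcases (by omega : x = 0 ∨ x = 1) with rfl | rfl <;> simp [π]
    have e1 : ∀ k (x : Fin 2), π k x 1 = (1 : Matrix (Fin 2) (Fin 2) ℂ) x 1 := by
      intro k x; rcases (by omega : x = 0 ∨ x = 1) with rfl | rfl <;> simp [π]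
    rcases hr with hr | hr
    · have h3 : (Finset.univ.filter fun b : Fin 3 => b.val < r) = {0, 1} := by
        rw [hr]; decide
      rw [h3, Finset.sum_pair (by decide)]
      simp only [e0, e1]
    · have h3 : (Finset.univ.filter fun b : Fin 3 => b.val < r) = Finset.univ := by
        rw [hr]; decide
      rw [h3, Fin.sum_univ_three]
      have e2 : ∏ k, π k (i k) 2 = 0 := by
        rw [Finset.prod_eq_zero (Finset.mem_univ 0)]
        have h4 : α 0 = 0 := hα3 0 hr
        have h5 : β 0 = 0 := hβ3 0 hr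
        have : ∀ x : Fin 2, π 0 x 2 = 0 := by
          intro x
          fin_cases x <;> simp [π, h4, h5]
        exact this _
      rw [e2, add_zero]
      simp only [e0, e1]
  have hdet : ∀ t, ∏ k, (D t k).det = 1 := by
    intro t
    simp only [D, Matrix.det_fin_two_of, mul_zero, sub_zero]
    rw [Finset.prod_mul_distrib, hprod 0 (by simp; omega), hprod 1 (by simp; omega), mul_one]
  have hlim2 : Tendsto (fun t => act (D t) (act π T)) (comap (fun t : ℂˣ => (t : ℂ)) (𝓝 0))
      (𝓝 (unitT 4 2 2)) := by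
    have h1 := ((continuous_act π).tendsto _).comp hlim
    rw [hunit] at h1
    refine h1.congr fun t => ?_
    simp only [Function.comp, act_act, hcomm]
  refine ⟨π, ?_, ?_, ?_⟩
  · have h1 := (continuous_invH.tendsto _).comp hlim2
    rw [invH_unit] at h1
    refine (tendsto_nhds_unique h1 (tendsto_const_nhds.congr fun t => ?_)).symm
    simp only [Function.comp, invH_act, hdet, one_mul]
  · have h1 := (continuous_invD.tendsto _).comp hlim2
    rw [invD_unit] at h1
    refine (tendsto_nhds_unique h1 (tendsto_const_nhds.congr fun t => ?_)).symm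
    simp only [Function.comp, invD_act, hdet, one_pow, one_mul]
  · have h1 := (continuous_invE.tendsto _).comp hlim2
    rw [invE_unit] at h1
    refine (tendsto_nhds_unique h1 (tendsto_const_nhds.congr fun t => ?_)).symm
    simp only [Function.comp, invE_act, hdet, one_pow, one_mul]

end Pool.Agent.Q76.Sub
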