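import Pool.Agent.Q76.Sub.Inv

/-!
# The Hilbert-Mumford subrank of the example is at most one
-/

set_option autoImplicit false

namespace Pool.Agent.Q76.Sub

open Filter Topology

/-- the words of the example -/
def words : Fin 8 → Fin 4 → Fin 3 :=
  ![![0, 0, 0, 0], ![0, 1, 1, 0], ![0, 1, 0, 1], ![1, 0, 1, 0], ![1, 0, 0, 1], ![1, 1, 0, 1],
    ![2, 0, 0, 1], ![2, 1, 1, 1]]

/-- the example -/
def exampleT : Tensor 4 3 := ∑ x, basisT (words x)

theorem act_exampleT {m : ℕ} (A : Fin 4 → Matrix (Fin m) (Fin 3) ℂ) (i : Fin 4 → Fin m) :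
    act A exampleT i =
      A 0 (i 0) 0 * A 1 (i 1) 0 * A 2 (i 2) 0 * A 3 (i 3) 0 +
      A 0 (i 0) 0 * A 1 (i 1) 1 * A 2 (i 2) 1 * A 3 (i 3) 0 +
      A 0 (i 0) 0 * A 1 (i 1) 1 * A 2 (i 2) 0 * A 3 (i 3) 1 +
      A 0 (i 0) 1 * A 1 (i 1) 0 * A 2 (i 2) 1 * A 3 (i 3) 0 +
      A 0 (i 0) 1 * A 1 (i 1) 0 * A 2 (i 2) 0 * A 3 (i 3) 1 +
      A 0 (i 0) 1 * A 1 (i 1) 1 * A 2 (i 2) 0 * A 3 (i 3) 1 +
      A 0 (i 0) 2 * A 1 (i 1) 0 * A 2 (i 2) 0 * A 3 (i 3) 1 +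
      A 0 (i 0) 2 * A 1 (i 1) 1 * A 2 (i 2) 1 * A 3 (i 3) 1 := by
  rw [exampleT, act_sum, Finset.sum_apply]
  simp only [act_basisT, Fin.sum_univ_eight, Fin.prod_univ_four]
  rfl

/-- the `2 × 2` block -/
def blk (A : Matrix (Fin 2) (Fin 3) ℂ) : Matrix (Fin 2) (Fin 2) ℂ := Matrix.of fun i j =>
  A i (Fin.castSucc j)

/-- the restriction in the first leg only -/
def base (A : Matrix (Fin 2) (Fin 3) ℂ) : Tensor 4 2 :=
  act ![A, !![1, 0, 0; 0, 1, 0], !![1, 0, 0; 0, 1, 0], !![1, 0, 0; 0, 1, 0]] exampleT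

theorem act_eq_base (A : Fin 4 → Matrix (Fin 2) (Fin 3) ℂ) :
    act A exampleT = act ![1, blk (A 1), blk (A 2), blk (A 3)] (base (A 0)) := by
  rw [base, act_act]
  funext i
  rw [act_exampleT, act_exampleT]
  simp only [Matrix.cons_val_zero, Matrix.cons_val_one, Matrix.cons_val,
    Matrix.mul_apply, Fin.sum_univ_two, blk, Matrix.of_apply]
  rcases (by omega : i 0 = 0 ∨ i 0 = 1) with h | h <;> rw [h] <;> simp

theorem base_cube (A : Matrix (Fin 2) (Fin 3) ℂ) (i j k l : Fin 2) :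
    cube (base A) i j k l =
      (if j = 0 ∧ k = 0 ∧ l = 0 then A i 0 else 0) +
      (if j = 1 ∧ k = 1 ∧ l = 0 then A i 0 else 0) +
      (if j = 1 ∧ k = 0 ∧ l = 1 then A i 0 else 0) +
      (if j = 0 ∧ k = 1 ∧ l = 0 then A i 1 else 0) +
      (if j = 0 ∧ k = 0 ∧ l = 1 then A i 1 else 0) +
      (if j = 1 ∧ k = 0 ∧ l = 1 then A i 1 else 0) +
      (if j = 0 ∧ k = 0 ∧ l = 1 then A i 2 else 0) +
      (if j = 1 ∧ k = 1 ∧ l = 1 then A i 2 else 0) := by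
  rw [cube, base, act_exampleT]
  simp only [Matrix.cons_val_zero, Matrix.cons_val_one, Matrix.cons_val]
  revert i j k l
  simp only [Fin.forall_fin_two]
  simp

theorem invH_base (A : Matrix (Fin 2) (Fin 3) ℂ) :
    invH (cube (base A)) =
      2 * ((A 0 0 * A 1 1 - A 0 1 * A 1 0) + (A 0 0 * A 1 2 - A 0 2 * A 1 0)) := by
  simp only [invH, base_cube]
  simp
  ring

theorem invD_base (A : Matrix (Fin 2) (Fin 3) ℂ) :
    invD (cube (base A)) = -((A 0 0 * A 1 2 - A 0 2 * A 1 0) ^ 2 -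
      (A 0 0 * A 1 1 - A 0 1 * A 1 0) * (A 0 1 * A 1 2 - A 0 2 * A 1 1)) := by
  simp only [invD, base_cube]
  simp
  ring

theorem invE_base (A : Matrix (Fin 2) (Fin 3) ℂ) :
    invE (cube (base A)) = (A 0 0 * A 1 1 - A 0 1 * A 1 0) ^ 2 -
      ((A 0 0 * A 1 2 - A 0 2 * A 1 0) ^ 2 -
      (A 0 0 * A 1 1 - A 0 1 * A 1 0) * (A 0 1 * A 1 2 - A 0 2 * A 1 1)) := by
  simp only [invE, base_cube]
  simp
  ring

/-- no restriction of the example has the invariants of `I_2` -/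
theorem no_restriction (A : Fin 4 → Matrix (Fin 2) (Fin 3) ℂ)
    (hH : invH (cube (act A exampleT)) = 1) (hD : invD (cube (act A exampleT)) = 0)
    (hE : invE (cube (act A exampleT)) = 0) : False := by
  rw [act_eq_base, invH_act, invH_base] at hH
  rw [act_eq_base, invD_act, invD_base] at hD
  rw [act_eq_base, invE_act, invE_base] at hE
  set δ := ∏ k, ((![1, blk (A 1), blk (A 2), blk (A 3)] :
    Fin 4 → Matrix (Fin 2) (Fin 2) ℂ) k).det with hδ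
  have hδ0 : δ ≠ 0 := by
    intro h
    rw [h, zero_mul] at hH
    exact zero_ne_one hH
  set x := A 0 0 0 * A 0 1 1 - A 0 0 1 * A 0 1 0
  set y := A 0 0 0 * A 0 1 2 - A 0 0 2 * A 0 1 0
  set z := A 0 0 1 * A 0 1 2 - A 0 0 2 * A 0 1 1
  have h1 : y ^ 2 - x * z = 0 := by
    have := (mul_eq_zero.1 hD).resolve_left (pow_ne_zero 2 hδ0)
    exact neg_eq_zero.1 this
  have h2 : x ^ 2 = 0 := by
    have := (mul_eq_zero.1 hE).resolve_left (pow_ne_zero 2 hδ0)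
    rw [h1, sub_zero] at this
    exact this
  have hx : x = 0 := pow_eq_zero_iff (two_ne_zero) |>.1 h2
  rw [hx, zero_mul, sub_zero] at h1
  have hy : y = 0 := pow_eq_zero_iff (two_ne_zero) |>.1 h1
  rw [hx, hy] at hH
  simp at hH

end Pool.Agent.Q76.Sub
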